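import Mathlib
import Pool.Agent.D0H11.GM.Stm
import Pool.Agent.H902R3.Task469C

/-!
# Project GM (helper11), module BTM (helper2)
-/

set_option autoImplicit false

namespace Pool.Agent.D0H2.GM

open Finset MeasureTheory Pool.Agent.D0H11.GM

theorem btm_of (Y₀ : ℕ) (hY₀ : 2 ≤ Y₀) (h : ∀ A Y : ℕ, Y₀ ≤ Y →
    (((Ioc A (A + Y)).filter Nat.Prime).card : ℝ) ≤ (2 + 1) * Y / Real.log Y) : S_BTM := by
  classical
  refine ⟨12 + Real.log (Y₀ + 2), ?_, ?_⟩
  · have : 0 ≤ Real.log ((Y₀ : ℝ) + 2) := Real.log_nonneg (by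
      have : (0 : ℝ) ≤ Y₀ := Nat.cast_nonneg _
      linarith)
    linarith
  intro y₁ y₂ h1 h12
  set d : ℝ := y₂ - y₁ with hd
  have hd0 : 0 ≤ d := by rw [hd]; linarith
  have hlogd : 0 < Real.log (d + 2) := Real.log_pos (by linarith)
  have hY₀r : (2 : ℝ) ≤ Y₀ := by exact_mod_cast hY₀
  have hlogY₀ : 0 ≤ Real.log ((Y₀ : ℝ) + 2) := Real.log_nonneg (by linarith)
  set A : ℕ := ⌊y₁⌋₊ with hA
  have hA2 : A ≤ ⌊y₂⌋₊ := Nat.floor_le_floor h12
  set Y : ℕ := ⌊y₂⌋₊ + 1 - A with hY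
  have hAY : A + Y = ⌊y₂⌋₊ + 1 := by omega
  have hAYr : (A : ℝ) + Y = (⌊y₂⌋₊ : ℝ) + 1 := by exact_mod_cast hAY
  have f1 : (A : ℝ) ≤ y₁ := Nat.floor_le h1
  have f2 : y₁ < (A : ℝ) + 1 := Nat.lt_floor_add_one _
  have f3 : (⌊y₂⌋₊ : ℝ) ≤ y₂ := Nat.floor_le (h1.trans h12)
  have f4 : y₂ < (⌊y₂⌋₊ : ℝ) + 1 := Nat.lt_floor_add_one _
  have hYd : d ≤ Y := by rw [hd]; linarith
  have hYd2 : (Y : ℝ) ≤ d + 2 := by rw [hd]; linarith
  by_cases hbig : Y₀ ≤ Y
  · have hsub : {y : ℝ | y ∈ Set.Icc y₁ y₂ ∧ (⌊y⌋₊ + 1).Prime} ⊆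
        ⋃ p ∈ (Ioc A (A + Y)).filter Nat.Prime, Set.Ico ((p : ℝ) - 1) p := by
      rintro y ⟨⟨hy1, hy2⟩, hp⟩
      have hy0 : 0 ≤ y := h1.trans hy1
      refine Set.mem_iUnion₂.mpr ⟨⌊y⌋₊ + 1, mem_filter.mpr ⟨mem_Ioc.mpr ⟨?_, ?_⟩, hp⟩, ?_, ?_⟩
      · have : A ≤ ⌊y⌋₊ := Nat.floor_le_floor hy1
        omega
      · have : ⌊y⌋₊ ≤ ⌊y₂⌋₊ := Nat.floor_le_floor hy2
        omega
      · push_cast
        have := Nat.floor_le hy0
        linarith
      · push_cast
        exact Nat.lt_floor_add_one _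
    calc volume {y : ℝ | y ∈ Set.Icc y₁ y₂ ∧ (⌊y⌋₊ + 1).Prime}
        ≤ volume (⋃ p ∈ (Ioc A (A + Y)).filter Nat.Prime, Set.Ico ((p : ℝ) - 1) p) :=
          measure_mono hsub
      _ ≤ ∑ p ∈ (Ioc A (A + Y)).filter Nat.Prime, volume (Set.Ico ((p : ℝ) - 1) p) :=
          measure_biUnion_finset_le _ _
      _ = ((Ioc A (A + Y)).filter Nat.Prime).card := by
          simp [Real.volume_Ico]
      _ = ENNReal.ofReal (((Ioc A (A + Y)).filter Nat.Prime).card : ℝ) := by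
          rw [ENNReal.ofReal_natCast]
      _ ≤ ENNReal.ofReal ((12 + Real.log (Y₀ + 2)) * (d + 1) / Real.log (d + 2)) := by
          apply ENNReal.ofReal_le_ofReal
          refine (h A Y hbig).trans ?_
          have hY2 : (2 : ℝ) ≤ Y := by
            have : 2 ≤ Y := hY₀.trans hbig
            exact_mod_cast this
          have hlogY : 0 < Real.log Y := Real.log_pos (by linarith)
          have hlog2 : Real.log (d + 2) ≤ 2 * Real.log Y := by
            rw [← Real.log_rpow (by linarith)]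
            apply Real.log_le_log (by linarith)
            rw [Real.rpow_two]
            nlinarith
          have hinv : 1 / Real.log Y ≤ 2 / Real.log (d + 2) := by
            rw [div_le_div_iff₀ hlogY hlogd]
            linarith
          calc (2 + 1) * (Y : ℝ) / Real.log Y = 3 * Y * (1 / Real.log Y) := by ring
            _ ≤ 3 * Y * (2 / Real.log (d + 2)) := by gcongr
            _ ≤ 3 * (2 * (d + 1)) * (2 / Real.log (d + 2)) := by
                gcongr
                linarith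
            _ = 12 * (d + 1) / Real.log (d + 2) := by ring
            _ ≤ (12 + Real.log (Y₀ + 2)) * (d + 1) / Real.log (d + 2) := by
                gcongr
                linarith
  · push Not at hbig
    have hYr : (Y : ℝ) ≤ Y₀ := by exact_mod_cast hbig.le
    calc volume {y : ℝ | y ∈ Set.Icc y₁ y₂ ∧ (⌊y⌋₊ + 1).Prime}
        ≤ volume (Set.Icc y₁ y₂) := measure_mono fun y hy => hy.1
      _ = ENNReal.ofReal d := by rw [Real.volume_Icc]
      _ ≤ ENNReal.ofReal ((12 + Real.log (Y₀ + 2)) * (d + 1) / Real.log (d + 2)) := by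
          apply ENNReal.ofReal_le_ofReal
          rw [le_div_iff₀ hlogd]
          have hl : Real.log (d + 2) ≤ Real.log (Y₀ + 2) :=
            Real.log_le_log (by linarith) (by linarith)
          nlinarith

theorem t_BTM : S_BTM := by
  obtain ⟨Y₀, hY₀, h⟩ := Pool.Agent.H902R3.C469.bt2 1 one_pos
  exact btm_of Y₀ hY₀ h

end Pool.Agent.D0H2.GM
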